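import Mathlib
import Pool.Agent.V1176.CircC

set_option autoImplicit false

open Polynomial Filter Topology ComplexConjugate

namespace Pool.Agent.Results.MP_9de7c4_an.UnboundedComponents

/-- The darga `r + s` of a nonzero polynomial `a_r x^r + ... + a_s x^s`, `a_r ≠ 0 ≠ a_s`. -/
noncomputable def darga (p : ℂ[X]) : ℕ := p.natTrailingDegree + p.natDegree

/-- Self-inversive: nonzero, with `p_j = conj p_{n-j}` for `0 ≤ j ≤ n`, where `n` is the darga
(all coefficients beyond index `n` vanish, since the degree is at most the darga). -/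
def SelfInversive (p : ℂ[X]) : Prop :=
  p ≠ 0 ∧ ∀ j : ℕ, j ≤ darga p → p.coeff j = conj (p.coeff (darga p - j))

/-- Trim: the darga exceeds the degree. -/
def Trim (p : ℂ[X]) : Prop := p.natDegree < darga p

/-- All complex roots lie on the unit circle. -/
def CircleRooted (p : ℂ[X]) : Prop := ∀ z : ℂ, p.IsRoot z → ‖z‖ = 1

/-- `S(p) = {α > 0 : α (x^n + 1) + p(x) is circle rooted}`, `n` the darga of `p`. -/
def S (p : ℂ[X]) : Set ℝ :=
  {α | 0 < α ∧ CircleRooted (C (α : ℂ) * (X ^ darga p + 1) + p)}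

/-- The set of connected components of a set of reals. -/
def components (A : Set ℝ) : Set (Set ℝ) := {I | ∃ x ∈ A, I = connectedComponentIn A x}

/-- `c(p)`: the number of connected components of `S(p)`. -/
noncomputable def c (p : ℂ[X]) : ℕ∞ := (components (S p)).encard

/-- The number of connected components of `S(p)` which are nondegenerate intervals. -/
noncomputable def cNondeg (p : ℂ[X]) : ℕ∞ :=
  {I ∈ components (S p) | (interior I).Nonempty}.encard

open Pool.Agent.V1176.Circ

theorem darga_eq {n : ℕ} {p : ℂ[X]} (hp : SI n p) (hp0 : p ≠ 0) : darga p = n := by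
  have h1 : p.coeff p.natDegree ≠ 0 := leadingCoeff_ne_zero.mpr hp0
  have h2 : p.coeff p.natTrailingDegree ≠ 0 := trailingCoeff_nonzero_iff_nonzero.mpr hp0
  have hs := hp.1
  have hr : p.natTrailingDegree ≤ n := (natTrailingDegree_le_natDegree p).trans hs
  have h3 : p.coeff (n - p.natDegree) ≠ 0 := by
    have := hp.2 p.natDegree hs
    intro h0
    rw [h0, map_zero] at this
    exact h1 this
  have h4 : p.coeff (n - p.natTrailingDegree) ≠ 0 := by
    have := hp.2 p.natTrailingDegree hr
    intro h0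
    rw [h0, map_zero] at this
    exact h2 this
  have h5 := natTrailingDegree_le_of_ne_zero h3
  have h6 := le_natDegree_of_ne_zero h4
  unfold darga
  omega

theorem strict_CR {n : ℕ} {p : ℂ[X]} {t : ℝ} (h : Strict n (fam n p t)) (h0 : fam n p t ≠ 0) :
    CircleRooted (C (t : ℂ) * (X ^ n + 1) + p) := by
  intro z hz
  exact h.2.2 z ((mem_roots h0).mpr hz)

/-- strictness persists near a positive parameter -/
theorem near {n : ℕ} {p : ℂ[X]} (hp : SI n p) (hd : p.degree < (bin n).degree) {a : ℝ} (ha : 0 < a)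
    (h : Strict n (fam n p a)) : ∀ᶠ t : ℝ in 𝓝 a, 0 < t ∧ Strict n (fam n p t) := by
  have h1 := Strict_stable h (fam_SI hp a) hp (by rw [fam_degree hd ha.ne']; exact hd)
  have h2 : Tendsto (fun t : ℝ => a / t - 1) (𝓝 a) (𝓝 0) := by
    have h3 : ContinuousAt (fun t : ℝ => a / t - 1) a := by
      apply ContinuousAt.sub _ continuousAt_const
      exact continuousAt_const.div continuousAt_id ha.ne'
    have h4 := h3.tendsto
    simp only [div_self ha.ne', sub_self] at h4
    exact h4
  filter_upwards [h2.eventually h1, eventually_gt_nhds ha] with t ht ht0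
  refine ⟨ht0, ?_⟩
  have h5 : fam n p t = C ((t / a : ℝ) : ℂ) * pert (fam n p a) p (a / t - 1) := by
    have e1 : (C ((t / a : ℝ) : ℂ) * C (a : ℂ) : ℂ[X]) = C (t : ℂ) := by
      rw [← C_mul, ← Complex.ofReal_mul, div_mul_cancel₀ _ ha.ne']
    have e2 : (C ((t / a : ℝ) : ℂ) * (1 + C ((a / t - 1 : ℝ) : ℂ)) : ℂ[X]) = 1 := by
      rw [← C_1, ← C_add, ← C_mul]
      congr 1
      rw [← Complex.ofReal_one, ← Complex.ofReal_add, ← Complex.ofReal_mul]
      congr 1
      field_simp
      ring
    rw [fam, pert, fam]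
    linear_combination (-bin n) * e1 - p * e2
  rw [h5]
  have h6 : (t / a : ℝ) ≠ 0 := (div_pos ht0 ha).ne'
  exact ht.C_mul (by exact_mod_cast h6)

theorem main (K : ℕ) : ∃ p : ℂ[X], SelfInversive p ∧ Trim p ∧ (K : ℕ∞) ≤ cNondeg p := by
  classical
  obtain ⟨n, p, α, τ, ⟨hn2, hp0, hSI, hc0, hpos, hst, hτ⟩⟩ := exists_state K
  have hdar := darga_eq hSI hp0
  have hn : n ≠ 0 := by omega
  have hd := degree_lt_bin hSI hc0
  have hbn := (bin_monic hn).ne_zero
  have hfam0 : ∀ t : ℝ, t ≠ 0 → fam n p t ≠ 0 := by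
    intro t ht h0
    have := fam_degree hd ht
    rw [h0, degree_zero] at this
    exact hbn (degree_eq_bot.mp this.symm)
  have hmem : ∀ t : ℝ, t ∈ S p ↔ 0 < t ∧ CircleRooted (C (t : ℂ) * (X ^ n + 1) + p) := by
    intro t
    show 0 < t ∧ CircleRooted (C (t : ℂ) * (X ^ darga p + 1) + p) ↔ _
    rw [hdar]
  have hαS : ∀ i, i ≤ K → α i ∈ S p := fun i hi =>
    (hmem _).mpr ⟨hpos i hi, strict_CR (hst i hi) (hfam0 _ (hpos i hi).ne')⟩
  have hτS : ∀ i, i < K → τ i ∉ S p := by
    intro i hi h
    exact (hτ i hi).2.2 fun z hz => ((hmem _).mp h).2 z hz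
  have hmono : ∀ i j, i ≤ j → j ≤ K → α i ≤ α j := by
    intro i j hij
    induction j, hij using Nat.le_induction with
    | base => intro _; exact le_rfl
    | succ j _ ih =>
      intro hj
      have h1 := ih (by omega)
      obtain ⟨h2, h3, -⟩ := hτ j (by omega)
      linarith
  refine ⟨p, ⟨hp0, ?_⟩, ?_, ?_⟩
  · rw [hdar]; exact hSI.2
  · unfold Trim
    rw [hdar]
    rw [degree_eq_natDegree hp0, degree_eq_natDegree hbn, bin_natDegree] at hd
    exact_mod_cast hd
  · set f : ℕ → Set ℝ := fun i => connectedComponentIn (S p) (α i) with hf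
    have hlt : ∀ i j, i < j → j ≤ K → f i ≠ f j := by
      intro i j hij hj heq
      have h1 : α j ∈ f i := by
        rw [heq]; exact mem_connectedComponentIn (hαS j hj)
      have h2 : α i ∈ f i := mem_connectedComponentIn (hαS i (by omega))
      have h3 : (f i).OrdConnected := isPreconnected_connectedComponentIn.ordConnected
      obtain ⟨h4, h5, -⟩ := hτ i (by omega)
      have h6 := hmono (i + 1) j hij hj
      have h7 : τ i ∈ f i := h3.out h2 h1 ⟨h4.le, by linarith⟩
      exact hτS i (by omega) (connectedComponentIn_subset _ _ h7)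
    have hinj : Set.InjOn f (Finset.range (K + 1) : Set ℕ) := by
      intro i hi j hj heq
      have hi' : i ≤ K := Nat.lt_succ_iff.mp (Finset.mem_range.mp (Finset.mem_coe.mp hi))
      have hj' : j ≤ K := Nat.lt_succ_iff.mp (Finset.mem_range.mp (Finset.mem_coe.mp hj))
      rcases lt_trichotomy i j with h | h | h
      · exact absurd heq (hlt i j h hj')
      · exact h
      · exact absurd heq.symm (hlt j i h hi')
    have hsub : f '' (Finset.range (K + 1) : Set ℕ) ⊆
        {I ∈ components (S p) | (interior I).Nonempty} := by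
      rintro _ ⟨i, hi, rfl⟩
      have hi' : i ≤ K := Nat.lt_succ_iff.mp (Finset.mem_range.mp (Finset.mem_coe.mp hi))
      refine ⟨⟨α i, hαS i hi', rfl⟩, ?_⟩
      obtain ⟨l, u, hlu, hsub⟩ := mem_nhds_iff_exists_Ioo_subset.mp
        (near hSI hd (hpos i hi') (hst i hi'))
      have h1 : Set.Ioo l u ⊆ S p := by
        intro t ht
        obtain ⟨h2, h3⟩ := hsub ht
        exact (hmem _).mpr ⟨h2, strict_CR h3 (hfam0 _ h2.ne')⟩
      have h2 : Set.Ioo l u ⊆ f i := isPreconnected_Ioo.subset_connectedComponentIn hlu h1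
      exact ⟨α i, interior_maximal h2 isOpen_Ioo hlu⟩
    have h1 := Set.encard_le_encard hsub
    rw [hinj.encard_image, Set.encard_coe_eq_coe_finsetCard, Finset.card_range] at h1
    refine le_trans ?_ h1
    exact_mod_cast Nat.le_succ K

theorem cNondeg_le (p : ℂ[X]) : cNondeg p ≤ c p :=
  Set.encard_le_encard fun _ h => h.1

/-- The supremum of the number of components of `S(p)` over all trim self-inversive polynomials
is infinite, even when only nondegenerate components are counted. -/
theorem result :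
    (⨆ p : {p : ℂ[X] // SelfInversive p ∧ Trim p}, c (p : ℂ[X])) = ⊤ ∧
    ∀ K : ℕ, ∃ p : ℂ[X], SelfInversive p ∧ Trim p ∧ (K : ℕ∞) ≤ cNondeg p := by
  refine ⟨?_, main⟩
  rw [ENat.eq_top_iff_forall_ge]
  intro K
  obtain ⟨p, h1, h2, h3⟩ := main K
  exact (h3.trans (cNondeg_le p)).trans
    (le_iSup (fun p : {p : ℂ[X] // SelfInversive p ∧ Trim p} => c (p : ℂ[X])) ⟨p, h1, h2⟩)

end Pool.Agent.Results.MP_9de7c4_an.UnboundedComponents
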